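import Pool.Agent.H18.VZ.Targets
import Pool.Agent.H8.P2.CONE
import Pool.Agent.H18.HX.Basic

/-!
# The orbit closure is a cone
-/

open MvPolynomial
open Pool.Agent.H12.ZD (pmap)
open Pool.Agent.H18.HIT Pool.Agent.H18.HX Pool.Agent.H18.VZ
open Pool.Agent.H8.P2 (sc eval_sc sc_one sc_sc sc_hom vdm_mem)
open Pool.Agent.H20.HIT (hom_eval)
open Pool.Agent.H55.HIT (sum_hc)

namespace Pool.Agent.H80.VZ

section

variable {N : ℕ} {k : Type} [Field k]

/-- scaling by roots of unity preserves the ideal of the orbit -/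
theorem scaleZ {T : Tup N k} {y : Fin N → k} {D : ℕ} (Z : (Fin N → k) → Prop)
    (hZ : ∀ (m : ℕ) (ζ : k), Z (fun i => ζ * (pmap T)^[m] y i))
    (hT : ∀ i, (T i).IsHomogeneous D)
    (hprime : (van T y).IsPrime) (hstar : ∀ q, aeval T q ∈ van T y → q ∈ van T y) {Δ : Po N k}
    (hΔ : Δ ∉ van T y)
    (htot : ∀ w : Fin N → k, Z w → (∀ q ∈ van T y, eval (pmap T w) q = 0) →
      eval (pmap T w) Δ ≠ 0 → ∀ q ∈ van T y, eval w q = 0) (n : ℕ) :
    ∀ ζ : k, ζ ^ (D ^ n) = 1 → ∀ q ∈ van T y, sc ζ q ∈ van T y := by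
  induction n with
  | zero =>
    intro ζ hζ q hq
    rw [pow_zero, pow_one] at hζ
    rwa [hζ, sc_one]
  | succ n ih =>
    intro ζ hζ q hq
    have hζ' : (ζ ^ D) ^ (D ^ n) = 1 := by
      rw [← pow_mul, ← pow_succ', hζ]
    have hζ'' : ((ζ ^ D)⁻¹) ^ (D ^ n) = 1 := by
      rw [inv_pow, hζ', inv_one]
    have hne : ζ ^ D ≠ 0 := by
      intro h0
      rw [h0] at hζ'
      rcases Nat.eq_zero_or_pos (D ^ n) with h1 | h1
      · have h2 : D = 0 := by
          by_contra h2
          exact (pow_ne_zero n h2) h1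
        rw [h2, pow_zero] at h0
        exact one_ne_zero h0
      · rw [zero_pow (by omega)] at hζ'
        exact zero_ne_one hζ'
    have hmem : sc ζ q * aeval T (sc (ζ ^ D) Δ) ∈ van T y := by
      intro m
      rw [map_mul, eval_aeval, eval_sc, eval_sc]
      have hZm := hZ m ζ
      set w := (pmap T)^[m] y with hw
      by_cases hz : eval (fun i => ζ ^ D * pmap T w i) Δ = 0
      · rw [hz, mul_zero]
      · have h1 : pmap T (fun i => ζ * w i) = fun i => ζ ^ D * pmap T w i := by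
          funext i
          exact hom_eval (hT i) ζ w
        have h2 := htot (fun i => ζ * w i) hZm (by
          intro q' hq'
          rw [h1, ← eval_sc, hw, ← Function.iterate_succ_apply' (pmap T)]
          exact ih _ hζ' q' hq' (m + 1)) (by rwa [h1]) q hq
        rw [h2, zero_mul]
    rcases hprime.mem_or_mem hmem with h1 | h1
    · exact h1
    · exfalso
      apply hΔ
      have h2 := ih _ hζ'' _ (hstar _ h1)
      rwa [sc_sc _ _ (inv_mul_cancel₀ hne)] at h2

/-- the ideal of the orbit is homogeneous -/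
theorem coneZ [IsAlgClosed k] [CharZero k] {T : Tup N k} {y : Fin N → k} {D : ℕ} (hD : 2 ≤ D)
    (Z : (Fin N → k) → Prop)
    (hZ : ∀ (m : ℕ) (ζ : k), Z (fun i => ζ * (pmap T)^[m] y i))
    (hT : ∀ i, (T i).IsHomogeneous D)
    (hprime : (van T y).IsPrime) (hstar : ∀ q, aeval T q ∈ van T y → q ∈ van T y) {Δ : Po N k}
    (hΔ : Δ ∉ van T y)
    (htot : ∀ w : Fin N → k, Z w → (∀ q ∈ van T y, eval (pmap T w) q = 0) →
      eval (pmap T w) Δ ≠ 0 → ∀ q ∈ van T y, eval w q = 0) {q : Po N k} (hq : q ∈ van T y)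
    (m : ℕ) : homogeneousComponent m q ∈ van T y := by
  rcases Nat.lt_or_ge q.totalDegree m with hm | hm
  · rw [homogeneousComponent_eq_zero _ _ hm]
    exact Ideal.zero_mem _
  set e := q.totalDegree with he
  have hlt : e < D ^ e := Nat.lt_pow_self (by omega)
  have hk : NeZero ((D ^ e : ℕ) : k) := ⟨by
    exact_mod_cast (pow_ne_zero e (by omega : D ≠ 0))⟩
  obtain ⟨ζ, hζ⟩ := HasEnoughRootsOfUnity.exists_primitiveRoot k (D ^ e)
  have hmem : ∀ i : Fin (e + 1), ∑ j : Fin (e + 1),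
      (ζ ^ (i : ℕ)) ^ (j : ℕ) • homogeneousComponent (j : ℕ) q ∈
        (van T y).restrictScalars k := by
    intro i
    have h1 : (ζ ^ (i : ℕ)) ^ (D ^ e) = 1 := by
      rw [← pow_mul, mul_comm, pow_mul, hζ.pow_eq_one, one_pow]
    have h2 := scaleZ Z hZ hT hprime hstar hΔ htot e (ζ ^ (i : ℕ)) h1 q hq
    have h3 : sc (ζ ^ (i : ℕ)) q = ∑ j : Fin (e + 1),
      (ζ ^ (i : ℕ)) ^ (j : ℕ) • homogeneousComponent (j : ℕ) q := by
      conv_lhs => rw [← sum_hc (p := q) (a := e) le_rfl, map_sum, Finset.sum_range]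
      apply Finset.sum_congr rfl
      intro j _
      rw [sc_hom (homogeneousComponent_isHomogeneous (j : ℕ) q), C_mul']
    rw [← h3]
    exact h2
  have hinj : Function.Injective fun i : Fin (e + 1) => ζ ^ (i : ℕ) := by
    intro i j hij
    apply Fin.ext
    exact hζ.pow_inj (by omega) (by omega) hij
  exact vdm_mem ((van T y).restrictScalars k) _ hinj
    (fun j : Fin (e + 1) => homogeneousComponent (j : ℕ) q) hmem ⟨m, by omega⟩

end

theorem pf_CNE : T_CNE := by
  intro N r d e k _ _ _ P T θ Δ x hP hd hT hS hB hx hprime hTot hΔ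
  have hPorb : ∀ n : ℕ, eval ((pmap T)^[n] x) P = 0 := fun n =>
    zer_span.1 (zer_iterate hS.inv (zer_span.2 hx) n)
  have hPV : P ∈ van T x := hPorb
  have hstar : ∀ q, aeval T q ∈ van T x → q ∈ van T x := by
    intro q hq
    have h0 : 0 < e := hB.pos
    have h1 := hTot.ind (fun i : Fin e => if (i : ℕ) = 0 then q else 0) (by
      have h2 : (∑ i : Fin e, θ ^ (i : ℕ) * aeval T (if (i : ℕ) = 0 then q else 0)) =
          aeval T q := by
        rw [Finset.sum_eq_single (⟨0, h0⟩ : Fin e)]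
        · simp
        · intro b _ hb
          have hb' : (b : ℕ) ≠ 0 := fun h => hb (Fin.ext h)
          rw [if_neg hb', map_zero, mul_zero]
        · intro h
          exact absurd (Finset.mem_univ _) h
      rw [h2]
      exact hq) ⟨0, h0⟩
    simpa using h1
  have htot : ∀ w : Fin (N + 1) → k, eval w P = 0 → (∀ q ∈ van T x, eval (pmap T w) q = 0) →
      eval (pmap T w) Δ ≠ 0 → ∀ q ∈ van T x, eval w q = 0 := by
    intro w hw hv hΔw q hq
    obtain ⟨M, c, hc⟩ := hB.gen q
    have h1 : (aeval T Δ ^ M * q - ∑ i : Fin e, θ ^ (i : ℕ) * aeval T (c i)) ∈ van T x :=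
      Ideal.mem_of_dvd _ hc hPV
    have h2 : (∑ i : Fin e, θ ^ (i : ℕ) * aeval T (c i)) ∈ van T x := by
      have h3 : aeval T Δ ^ M * q ∈ van T x := Ideal.mul_mem_left _ _ hq
      have h4 := (van T x).sub_mem h3 h1
      rwa [sub_sub_cancel] at h4
    have h3 := hTot.ind c h2
    obtain ⟨a, ha⟩ := hc
    have h4 := congrArg (eval w) ha
    rw [map_sub, map_mul, map_mul, hw, zero_mul, map_pow, eval_aeval, map_sum] at h4
    have h5 : ∑ i : Fin e, eval w (θ ^ (i : ℕ) * aeval T (c i)) = 0 := by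
      apply Finset.sum_eq_zero
      intro i _
      rw [map_mul, eval_aeval, hv _ (h3 i), mul_zero]
    rw [h5, sub_zero] at h4
    rcases mul_eq_zero.1 h4 with h6 | h6
    · exact absurd h6 (pow_ne_zero _ hΔw)
    · exact h6
  intro q hq m
  refine coneZ hd (fun w => eval w P = 0) (fun m ζ => ?_) hT hprime hstar hΔ htot hq m
  show eval (fun i => ζ * (pmap T)^[m] x i) P = 0
  rw [hom_eval hP.hom ζ ((pmap T)^[m] x), hPorb m, mul_zero]

end Pool.Agent.H80.VZ
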